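import Mathlib
import Pool.Agent.X119.CC.Stm

namespace Pool.Agent.X101.CCN

open Polynomial Filter Topology Pool.Agent.X119.CC

lemma zeros_of_alt {f : ℝ → ℝ} (hf : Continuous f) {m : ℕ} (h : Alt f m) :
    ∃ S : Finset ℝ, S.card = m ∧ ∀ z ∈ S, f z = 0 := by
  obtain ⟨u, hu, -, hs⟩ := h
  have hz : ∀ i : ℕ, ∃ z, i < m → (u i < z ∧ z < u (i+1) ∧ f z = 0) := by
    intro i
    by_cases hi : i < m
    · have hlt : u i < u (i+1) := hu (by omega)
      have hsi := hs i hi
      rcases mul_neg_iff.1 hsi with ⟨h1, h2⟩ | ⟨h1, h2⟩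
      · obtain ⟨z, hz, hz0⟩ := intermediate_value_Icc' hlt.le hf.continuousOn
          (show (0:ℝ) ∈ Set.Icc (f (u (i+1))) (f (u i)) from ⟨h2.le, h1.le⟩)
        refine ⟨z, fun _ => ⟨lt_of_le_of_ne hz.1 ?_, lt_of_le_of_ne hz.2 ?_, hz0⟩⟩
        · rintro rfl; linarith
        · rintro rfl; linarith
      · obtain ⟨z, hz, hz0⟩ := intermediate_value_Icc hlt.le hf.continuousOn
          (show (0:ℝ) ∈ Set.Icc (f (u i)) (f (u (i+1))) from ⟨h1.le, h2.le⟩)
        refine ⟨z, fun _ => ⟨lt_of_le_of_ne hz.1 ?_, lt_of_le_of_ne hz.2 ?_, hz0⟩⟩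
        · rintro rfl; linarith
        · rintro rfl; linarith
    · exact ⟨0, fun h => absurd h hi⟩
  choose z hz using hz
  refine ⟨(Finset.range m).image z, ?_, ?_⟩
  · rw [Finset.card_image_of_injOn, Finset.card_range]
    intro i hi j hj hij
    simp only [Finset.coe_range, Set.mem_Iio] at hi hj
    by_contra hne
    rcases Nat.lt_or_gt_of_ne hne with hlt | hlt
    · have h1 := (hz i hi).2.1
      have h2 := (hz j hj).1
      have h3 : u (i+1) ≤ u j := hu.monotone hlt
      linarith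
    · have h1 := (hz j hj).2.1
      have h2 := (hz i hi).1
      have h3 : u (j+1) ≤ u i := hu.monotone hlt
      linarith
  · intro w hw
    rw [Finset.mem_image] at hw
    obtain ⟨i, hi, rfl⟩ := hw
    exact (hz i (Finset.mem_range.1 hi)).2.2

lemma cyc_ne {n : ℕ} (hn : 1 ≤ n) {x : ℝ} (hx : |x| < 1) : (cyclotomic n ℝ).eval x ≠ 0 := by
  intro h
  have h1 : x ^ n = 1 := isRoot_of_unity_of_root_cyclotomic (Nat.mem_divisors_self n (by omega)) h
  have h2 : |x| ^ n = 1 := by rw [← abs_pow, h1, abs_one]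
  have h3 : |x| ^ n < 1 := pow_lt_one₀ (abs_nonneg x) hx (by omega)
  linarith

lemma abs_lt_one {σ : ℝ} (hσ : σ = 1 ∨ σ = -1) (u : ℝ) : |σ * Real.exp (-Real.exp u)| < 1 := by
  rw [abs_mul, abs_of_pos (Real.exp_pos _)]
  have h1 : |σ| = 1 := by rcases hσ with rfl | rfl <;> simp
  rw [h1, one_mul, Real.exp_lt_one_iff]
  have := Real.exp_pos u
  linarith

lemma cont_gg {n : ℕ} (hn : 1 ≤ n) {σ : ℝ} (hσ : σ = 1 ∨ σ = -1) : Continuous (gg n σ) := by
  unfold gg
  have hx : Continuous (fun u : ℝ => σ * Real.exp (-Real.exp u)) := by fun_prop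
  refine (Real.continuous_exp.mul hx).mul (Continuous.div ?_ ?_ ?_)
  · exact (derivative (cyclotomic n ℝ)).continuous.comp hx
  · exact (cyclotomic n ℝ).continuous.comp hx
  · intro u; exact cyc_ne hn (abs_lt_one hσ u)

lemma root_of_gg {n : ℕ} (hn : 1 ≤ n) {σ : ℝ} (hσ : σ = 1 ∨ σ = -1) {u : ℝ} (h : gg n σ u = 0) :
    (derivative (cyclotomic n ℝ)).eval (σ * Real.exp (-Real.exp u)) = 0 := by
  unfold gg at h
  have hσ0 : σ ≠ 0 := by rcases hσ with rfl | rfl <;> norm_num
  have h1 : Real.exp u * (σ * Real.exp (-Real.exp u)) ≠ 0 :=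
    mul_ne_zero (Real.exp_pos _).ne' (mul_ne_zero hσ0 (Real.exp_pos _).ne')
  rcases mul_eq_zero.1 h with h2 | h2
  · exact absurd h2 h1
  · rcases div_eq_zero_iff.1 h2 with h3 | h3
    · exact h3
    · exact absurd h3 (cyc_ne hn (abs_lt_one hσ u))

theorem t_CNT : S_CNT := by
  intro n k hn hk h1 h2
  have hne : derivative (cyclotomic n ℝ) ≠ 0 := by
    intro h0
    obtain ⟨u, -, hu, -⟩ := h1
    apply hu 0 (by omega)
    unfold gg
    rw [h0]; simp
  obtain ⟨S, hS, hS0⟩ := zeros_of_alt (cont_gg hn (Or.inr rfl)) h1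
  obtain ⟨T, hT, hT0⟩ := zeros_of_alt (cont_gg hn (Or.inl rfl)) h2
  have hinj : ∀ σ : ℝ, (σ = 1 ∨ σ = -1) →
      Function.Injective (fun u : ℝ => σ * Real.exp (-Real.exp u)) := by
    intro σ hσ u v huv
    have hσ0 : σ ≠ 0 := by rcases hσ with rfl | rfl <;> norm_num
    simp only at huv
    have h3 := mul_left_cancel₀ hσ0 huv
    have h4 := Real.exp_injective h3
    exact Real.exp_injective (neg_injective h4)
  set A := S.image (fun u : ℝ => (-1) * Real.exp (-Real.exp u)) with hA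
  set B := T.image (fun u : ℝ => 1 * Real.exp (-Real.exp u)) with hB
  have hAc : A.card = k := by
    rw [hA, Finset.card_image_of_injective _ (hinj (-1) (Or.inr rfl)), hS]
  have hBc : B.card = k - 1 := by
    rw [hB, Finset.card_image_of_injective _ (hinj 1 (Or.inl rfl)), hT]
  have hdisj : Disjoint A B := by
    rw [Finset.disjoint_left]
    intro x hx hx'
    rw [hA, Finset.mem_image] at hx
    rw [hB, Finset.mem_image] at hx'
    obtain ⟨u, -, rfl⟩ := hx
    obtain ⟨v, -, hv⟩ := hx'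
    have := Real.exp_pos (-Real.exp u)
    have := Real.exp_pos (-Real.exp v)
    linarith
  have hsub : A ∪ B ⊆ (derivative (cyclotomic n ℝ)).roots.toFinset := by
    intro x hx
    rw [Multiset.mem_toFinset, mem_roots hne, IsRoot.def]
    rcases Finset.mem_union.1 hx with hx | hx
    · rw [hA, Finset.mem_image] at hx
      obtain ⟨u, hu, rfl⟩ := hx
      exact root_of_gg hn (Or.inr rfl) (hS0 u hu)
    · rw [hB, Finset.mem_image] at hx
      obtain ⟨u, hu, rfl⟩ := hx
      exact root_of_gg hn (Or.inl rfl) (hT0 u hu)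
  calc 2 * k - 1 = (A ∪ B).card := by
        rw [Finset.card_union_of_disjoint hdisj, hAc, hBc]; omega
    _ ≤ (derivative (cyclotomic n ℝ)).roots.toFinset.card := Finset.card_le_card hsub
    _ ≤ _ := Multiset.toFinset_card_le _

end Pool.Agent.X101.CCN
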